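import Pool.Agent.H32.N6H.Targets

/-!
Board n6h: good hyperplanes over any field of characteristic zero.
-/

set_option autoImplicit false

open Polynomial Matrix Pool.Agent.H32.QC Pool.Agent.H34.N6 Pool.Agent.H32.N6H

namespace Pool.Agent.H1.N6H

theorem pf_BER (hLIN : T_LIN) (hGDM : T_GDM) (hSDM : T_SDM) (hDIG : T_DIG) : T_BER := by
  intro F _ _ n A B hAB
  have : Infinite F := CharZero.infinite F
  have hE : SD (A.map (algebraMap F (AlgebraicClosure F)))
      (B.map (algebraMap F (AlgebraicClosure F))) :=
    (hSDM F (AlgebraicClosure F) (algebraMap F (AlgebraicClosure F)) (n + 1) A B).1.1 hAB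
  have key : ∀ T : Finset (Fin (n + 1)), ∃ l : Fin (n + 1) → AlgebraicClosure F,
      Gd (A.map (algebraMap F (AlgebraicClosure F)))
        (B.map (algebraMap F (AlgebraicClosure F))) l ∧
      ∀ i ∈ T, ∃ a : F, algebraMap F (AlgebraicClosure F) a = l i := by
    intro T
    induction T using Finset.induction_on with
    | empty =>
      obtain ⟨l, hl⟩ := hDIG (AlgebraicClosure F) n _ _ hE
      exact ⟨l, hl, by simp⟩
    | insert i T hi ih =>
      obtain ⟨l, hl, hT⟩ := ih
      have h1 : Function.update l i 0 + (l i) • Pi.single i (1 : AlgebraicClosure F) = l := by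
        funext j
        by_cases hj : j = i
        · subst hj; simp
        · simp [Function.update_of_ne hj, Pi.single_eq_of_ne hj]
      have h2 := hLIN (AlgebraicClosure F) n (A.map (algebraMap F (AlgebraicClosure F)))
        (B.map (algebraMap F (AlgebraicClosure F))) (Function.update l i 0) (Pi.single i 1) (l i)
        (by rw [h1]; exact hl)
      obtain ⟨s, hs⟩ : ∃ s : F, Gd (A.map (algebraMap F (AlgebraicClosure F)))
          (B.map (algebraMap F (AlgebraicClosure F)))
          (Function.update l i 0 + (algebraMap F (AlgebraicClosure F) s) • Pi.single i 1) := by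
        by_contra hcon
        push Not at hcon
        have : (Set.range (algebraMap F (AlgebraicClosure F))).Finite :=
          h2.subset (by rintro _ ⟨s, rfl⟩; exact hcon s)
        exact (Set.infinite_range_of_injective (algebraMap F (AlgebraicClosure F)).injective) this
      refine ⟨_, hs, ?_⟩
      intro j hj
      by_cases hji : j = i
      · subst hji; exact ⟨s, by simp [← Algebra.algebraMap_eq_smul_one]⟩
      · rcases Finset.mem_insert.1 hj with h | h
        · exact absurd h hji
        · obtain ⟨a, ha⟩ := hT j h
          exact ⟨a, by simp [ha, hji]⟩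
  obtain ⟨l, hl, hT⟩ := key Finset.univ
  choose a ha using fun i => hT i (Finset.mem_univ i)
  refine ⟨a, ((hGDM F (AlgebraicClosure F) (algebraMap F (AlgebraicClosure F)) n A B a).1).2 ?_⟩
  have : (fun i => algebraMap F (AlgebraicClosure F) (a i)) = l := funext ha
  rw [this]
  exact hl

end Pool.Agent.H1.N6H
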